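import Mathlib
import Pool.Agent.VM5.Stmts

/-!
# Module EBC of the squad VM5
-/

set_option autoImplicit false

namespace Pool.Agent.VM5.H65

open Pool.Agent.VM5
open Pool.Agent.VM (Nr)
open Classical in
/-- the differences `ρ` -/
noncomputable def Rf (N K : ℕ) (t : ℝ) (h d : ℕ) : Finset ℤ :=
  (Finset.Icc (-(6 * (N : ℤ))) (6 * (N : ℤ))).filter (fun ρ => ρ ≠ 0 ∧
    Nr (t * (10 * (h : ℝ) * (d : ℝ) ^ 3 * (ρ : ℝ))) (2 / (K : ℝ) ^ 3))

theorem mem_P2 {N : ℕ} {S : Finset ℕ} {p : ℕ × ℕ × ℤ} (hp : p ∈ P2 N S) :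
    (1 ≤ p.1 ∧ p.1 ≤ N) ∧ p.2.1 ∈ S ∧ (-(N : ℤ) ≤ p.2.2 ∧ p.2.2 ≤ N) := by
  unfold P2 at hp
  simpa only [Finset.mem_product, Finset.mem_Icc] using hp

open Classical in
/-- the fibre: `(h, d, h', r')` fixed -/
theorem fib_card {N K : ℕ} {t : ℝ} {S : Finset ℕ} {h d h' : ℕ} {r' : ℤ}
    (F : Finset ((ℕ × ℕ × ℤ) × (ℕ × ℕ × ℤ)))
    (hF : ∀ v ∈ F, v.1 ∈ P2 N S ∧ v.2 ∈ P2 N S ∧ Close2 K t v ∧ v.1.2.1 = v.2.2.1 ∧
      v.1.2.1 = d ∧ v.1.1 = h ∧ v.2.1 = h' ∧ v.2.2.2 = r') :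
    F.card ≤ 1 + (Rf N K t h d).card := by
  rcases F.eq_empty_or_nonempty with he | ⟨x0, hx0⟩
  · rw [he]; simp
  obtain ⟨a1, a2, a3, a4, a5, a6, a7, a8⟩ := hF x0 hx0
  have hle : (F.erase x0).card ≤ (Rf N K t h d).card := by
    apply Finset.card_le_card_of_injOn (fun v => 2 * (v.1.2.2 - x0.1.2.2))
    · intro v hv
      rw [Finset.coe_erase] at hv
      obtain ⟨hv1, hv2⟩ := hv
      have hvF : v ∈ F := hv1
      obtain ⟨b1, b2, b3, b4, b5, b6, b7, b8⟩ := hF v hvF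
      have hne : v.1.2.2 ≠ x0.1.2.2 := by
        intro h
        apply hv2
        show v = x0
        apply Prod.ext
        · apply Prod.ext
          · rw [b6, a6]
          · apply Prod.ext
            · rw [b5, a5]
            · exact h
        · apply Prod.ext
          · rw [b7, a7]
          · apply Prod.ext
            · rw [← b4, b5, ← a4, a5]
            · rw [b8, a8]
      obtain ⟨-, -, c1, c2⟩ := mem_P2 b1
      obtain ⟨-, -, c3, c4⟩ := mem_P2 a1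
      show 2 * (v.1.2.2 - x0.1.2.2) ∈ (Rf N K t h d : Set ℤ)
      rw [Finset.mem_coe]
      unfold Rf
      rw [Finset.mem_filter, Finset.mem_Icc]
      refine ⟨⟨by omega, by omega⟩, by omega, ?_⟩
      obtain ⟨z, hz⟩ := b3 2
      obtain ⟨z0, hz0⟩ := a3 2
      refine ⟨z - z0, ?_⟩
      have hz' : |t * (m3 v.1 : ℝ) - t * (m3 v.2 : ℝ) - z| ≤ 1 / (K : ℝ) ^ 3 := hz
      have hz0' : |t * (m3 x0.1 : ℝ) - t * (m3 x0.2 : ℝ) - z0| ≤ 1 / (K : ℝ) ^ 3 := hz0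
      have e2 : v.2 = x0.2 := by
        apply Prod.ext
        · rw [b7, a7]
        · apply Prod.ext
          · rw [← b4, b5, ← a4, a5]
          · rw [b8, a8]
      rw [e2] at hz'
      have e : t * (10 * (h : ℝ) * (d : ℝ) ^ 3 * ((2 * (v.1.2.2 - x0.1.2.2) : ℤ) : ℝ)) -
          ((z - z0 : ℤ) : ℝ) = (t * (m3 v.1 : ℝ) - t * (m3 x0.2 : ℝ) - z) -
          (t * (m3 x0.1 : ℝ) - t * (m3 x0.2 : ℝ) - z0) := by
        simp only [m3, Z2, b5, b6, a5, a6]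
        push_cast
        ring
      rw [e]
      calc _ ≤ |t * (m3 v.1 : ℝ) - t * (m3 x0.2 : ℝ) - z| +
          |t * (m3 x0.1 : ℝ) - t * (m3 x0.2 : ℝ) - z0| := abs_sub _ _
        _ ≤ 2 / (K : ℝ) ^ 3 := by
          have : 2 / (K : ℝ) ^ 3 = 1 / (K : ℝ) ^ 3 + 1 / (K : ℝ) ^ 3 := by ring
          rw [this]; linarith
    · intro v hv w hw hvw
      rw [Finset.coe_erase] at hv hw
      have hvF : v ∈ F := hv.1
      have hwF : w ∈ F := hw.1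
      obtain ⟨b1, b2, b3, b4, b5, b6, b7, b8⟩ := hF v hvF
      obtain ⟨c1, c2, c3, c4, c5, c6, c7, c8⟩ := hF w hwF
      have hr : v.1.2.2 = w.1.2.2 := by
        have : 2 * (v.1.2.2 - x0.1.2.2) = 2 * (w.1.2.2 - x0.1.2.2) := hvw
        omega
      apply Prod.ext
      · apply Prod.ext
        · rw [b6, c6]
        · apply Prod.ext
          · rw [b5, c5]
          · exact hr
      · apply Prod.ext
        · rw [b7, c7]
        · apply Prod.ext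
          · rw [← b4, b5, ← c4, c5]
          · rw [b8, c8]
  rw [Finset.card_erase_of_mem hx0] at hle
  have : 0 < F.card := Finset.card_pos.mpr ⟨x0, hx0⟩
  omega

/-- the number of `h'` -/
theorem A_card {N u h : ℕ} (hu : 1 ≤ u) :
    (((Finset.Icc 1 N).filter (fun h' : ℕ => (u : ℤ) ∣ 5 * ((h : ℤ) - (h' : ℤ)))).card : ℝ) ≤
      5 * (1 + (N : ℝ) / (u : ℝ)) := by
  have h1 : ((Finset.Icc 1 N).filter (fun h' : ℕ => (u : ℤ) ∣ 5 * ((h : ℤ) - (h' : ℤ)))).card ≤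
      5 * N / u + 1 := by
    have : ((Finset.Icc 1 N).filter (fun h' : ℕ => (u : ℤ) ∣ 5 * ((h : ℤ) - (h' : ℤ)))).card ≤
        (Finset.range (5 * N / u + 1)).card := by
      apply Finset.card_le_card_of_injOn (fun h' => 5 * h' / u)
      · intro a ha
        rw [Finset.coe_filter] at ha
        obtain ⟨ha1, -⟩ := ha
        rw [Finset.mem_Icc] at ha1
        rw [Finset.mem_coe, Finset.mem_range]
        have : 5 * a / u ≤ 5 * N / u := Nat.div_le_div_right (by omega)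
        show 5 * a / u < 5 * N / u + 1
        omega
      · intro a ha b hb hab
        rw [Finset.coe_filter] at ha hb
        obtain ⟨-, ha2⟩ := ha
        obtain ⟨-, hb2⟩ := hb
        have hab' : 5 * a / u = 5 * b / u := hab
        have hd : (u : ℤ) ∣ 5 * (a : ℤ) - 5 * (b : ℤ) := by
          have := dvd_sub hb2 ha2
          have e : 5 * ((h : ℤ) - (b : ℤ)) - 5 * ((h : ℤ) - (a : ℤ)) = 5 * (a : ℤ) - 5 * (b : ℤ) := by
            ring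
          rw [e] at this
          exact this
        have q1 := Nat.div_add_mod (5 * a) u
        have q2 := Nat.div_add_mod (5 * b) u
        have r1 := Nat.mod_lt (5 * a) (show 0 < u by omega)
        have r2 := Nat.mod_lt (5 * b) (show 0 < u by omega)
        rw [hab'] at q1
        have hz : 5 * (a : ℤ) - 5 * (b : ℤ) = 0 := by
          apply Int.eq_zero_of_abs_lt_dvd hd
          rw [abs_lt]
          constructor <;> omega
        omega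
    simpa using this
  have h2 : ((5 * N / u : ℕ) : ℝ) ≤ ((5 * N : ℕ) : ℝ) / (u : ℝ) := Nat.cast_div_le
  have h3 : (((Finset.Icc 1 N).filter (fun h' : ℕ => (u : ℤ) ∣ 5 * ((h : ℤ) - (h' : ℤ)))).card : ℝ) ≤
      ((5 * N / u : ℕ) : ℝ) + 1 := by exact_mod_cast h1
  have h4 : ((5 * N : ℕ) : ℝ) / (u : ℝ) = 5 * ((N : ℝ) / (u : ℝ)) := by push_cast; ring
  rw [h4] at h2
  linarith

open Classical in
theorem rsm_sum {N K : ℕ} {t : ℝ} (d : ℕ) :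
    ∑ h ∈ Finset.Icc 1 N, (Rf N K t h d).card =
      Nat.card {x : ℕ × ℤ // 1 ≤ x.1 ∧ x.1 ≤ N ∧ x.2 ≠ 0 ∧ |x.2| ≤ 6 * (N : ℤ) ∧
        Nr (t * (10 * (x.1 : ℝ) * (d : ℝ) ^ 3 * (x.2 : ℝ))) (2 / (K : ℝ) ^ 3)} := by
  have h1 : {x : ℕ × ℤ | 1 ≤ x.1 ∧ x.1 ≤ N ∧ x.2 ≠ 0 ∧ |x.2| ≤ 6 * (N : ℤ) ∧
        Nr (t * (10 * (x.1 : ℝ) * (d : ℝ) ^ 3 * (x.2 : ℝ))) (2 / (K : ℝ) ^ 3)} =
      (((Finset.Icc 1 N) ×ˢ (Finset.Icc (-(6 * (N : ℤ))) (6 * (N : ℤ)))).filter (fun x : ℕ × ℤ =>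
        x.2 ≠ 0 ∧ Nr (t * (10 * (x.1 : ℝ) * (d : ℝ) ^ 3 * (x.2 : ℝ))) (2 / (K : ℝ) ^ 3)) :
        Finset (ℕ × ℤ)) := by
    ext x
    simp only [Finset.coe_filter, Finset.mem_product, Finset.mem_Icc, Set.mem_ofPred_eq, abs_le]
    tauto
  have h2 : Nat.card {x : ℕ × ℤ // 1 ≤ x.1 ∧ x.1 ≤ N ∧ x.2 ≠ 0 ∧ |x.2| ≤ 6 * (N : ℤ) ∧
        Nr (t * (10 * (x.1 : ℝ) * (d : ℝ) ^ 3 * (x.2 : ℝ))) (2 / (K : ℝ) ^ 3)} =
      Set.ncard {x : ℕ × ℤ | 1 ≤ x.1 ∧ x.1 ≤ N ∧ x.2 ≠ 0 ∧ |x.2| ≤ 6 * (N : ℤ) ∧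
        Nr (t * (10 * (x.1 : ℝ) * (d : ℝ) ^ 3 * (x.2 : ℝ))) (2 / (K : ℝ) ^ 3)} := rfl
  rw [h2, h1, Set.ncard_coe_finset, Finset.card_filter, Finset.sum_product]
  apply Finset.sum_congr rfl
  intro h _
  unfold Rf
  rw [Finset.card_filter]

theorem ebc (sig : SigStmt) (rsm : RsmStmt) : EbcStmt := by
  classical
  intro ε hε
  obtain ⟨C₀, hC₀, hR⟩ := rsm ε hε
  obtain ⟨C₁, hC₁, hsig⟩ := sig
  refine ⟨15 * (1 + C₀), by positivity, ?_⟩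
  intro N D K u t b S hPar
  have hPar' := hPar
  obtain ⟨h4, hN, hD, -, -, -, -, hDu, -, hWW, -, hS⟩ := hPar'
  have hu1 : 1 ≤ u := by omega
  have hur : (1 : ℝ) ≤ (u : ℝ) := by exact_mod_cast hu1
  have hK : 1 ≤ K := by
    rcases Nat.eq_zero_or_pos K with h0 | h0
    · exfalso
      have hw : (u : ℝ) ≤ WW N u t b := le_max_left _ _
      rw [h0] at hWW
      norm_num at hWW
      linarith
    · exact h0
  have hN1 : 1 ≤ N := by nlinarith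
  have hNr : (1 : ℝ) ≤ (N : ℝ) := by exact_mod_cast hN1
  -- the finset
  obtain ⟨F, hF⟩ : ∃ F : Finset ((ℕ × ℕ × ℤ) × (ℕ × ℕ × ℤ)), F = (P2 N S ×ˢ P2 N S).filter
      (fun v => Close2 K t v ∧ v.1.2.1 = v.2.2.1) := ⟨_, rfl⟩
  have hcard : Nat.card {v : (ℕ × ℕ × ℤ) × (ℕ × ℕ × ℤ) // v.1 ∈ P2 N S ∧ v.2 ∈ P2 N S ∧
        Close2 K t v ∧ v.1.2.1 = v.2.2.1} = F.card := by
    have h1 : {v : (ℕ × ℕ × ℤ) × (ℕ × ℕ × ℤ) | v.1 ∈ P2 N S ∧ v.2 ∈ P2 N S ∧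
        Close2 K t v ∧ v.1.2.1 = v.2.2.1} = (F : Set ((ℕ × ℕ × ℤ) × (ℕ × ℕ × ℤ))) := by
      ext v
      rw [hF]
      simp only [Finset.coe_filter, Finset.mem_product, Set.mem_ofPred_eq]
      tauto
    have h2 : Nat.card {v : (ℕ × ℕ × ℤ) × (ℕ × ℕ × ℤ) // v.1 ∈ P2 N S ∧ v.2 ∈ P2 N S ∧
        Close2 K t v ∧ v.1.2.1 = v.2.2.1} = Set.ncard {v : (ℕ × ℕ × ℤ) × (ℕ × ℕ × ℤ) |
          v.1 ∈ P2 N S ∧ v.2 ∈ P2 N S ∧ Close2 K t v ∧ v.1.2.1 = v.2.2.1} := rfl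
    rw [h2, h1, Set.ncard_coe_finset]
  rw [hcard]
  obtain ⟨T, hT⟩ : ∃ T : Finset (ℕ × ℕ × ℕ × ℤ), T = (S ×ˢ (Finset.Icc 1 N) ×ˢ (Finset.Icc 1 N) ×ˢ
      (Finset.Icc (-(N : ℤ)) (N : ℤ))).filter
      (fun k => (u : ℤ) ∣ 5 * ((k.2.1 : ℤ) - (k.2.2.1 : ℤ))) := ⟨_, rfl⟩
  have hmap : ∀ v ∈ F, (v.1.2.1, v.1.1, v.2.1, v.2.2.2) ∈ T := by
    intro v hv
    rw [hF, Finset.mem_filter, Finset.mem_product] at hv
    obtain ⟨⟨hv1, hv2⟩, hcl, hdd⟩ := hv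
    obtain ⟨⟨a1, a2⟩, a3, -⟩ := mem_P2 hv1
    obtain ⟨⟨b1, b2⟩, b3, b4, b5⟩ := mem_P2 hv2
    rw [hT, Finset.mem_filter]
    simp only [Finset.mem_product, Finset.mem_Icc]
    refine ⟨⟨a3, ⟨a1, a2⟩, ⟨b1, b2⟩, b4, b5⟩, ?_⟩
    obtain ⟨⟨h1, -⟩, -⟩ := hsig N D K u t b S hPar v.1 hv1 v.2 hv2 hcl
    obtain ⟨-, -, hdp, hdu⟩ := hS _ a3
    have e : m4 v.1 - m4 v.2 = (v.1.2.1 : ℤ) ^ 4 * (5 * ((v.1.1 : ℤ) - (v.2.1 : ℤ))) := by
      unfold m4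
      rw [← hdd]
      ring
    rw [e] at h1
    have hcop : IsCoprime (u : ℤ) ((v.1.2.1 : ℤ) ^ 4) := by
      apply IsCoprime.pow_right
      rw [Nat.isCoprime_iff_coprime]
      exact (Nat.Coprime.symm ((Nat.Prime.coprime_iff_not_dvd hdp).mpr hdu))
    exact hcop.dvd_of_dvd_mul_left h1
  have hsum : F.card ≤ ∑ k ∈ T, (1 + (Rf N K t k.2.1 k.1).card) := by
    rw [Finset.card_eq_sum_card_fiberwise (f := fun v : (ℕ × ℕ × ℤ) × (ℕ × ℕ × ℤ) =>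
      (v.1.2.1, v.1.1, v.2.1, v.2.2.2)) (t := T) (fun v hv => hmap v hv)]
    apply Finset.sum_le_sum
    intro k hk
    apply fib_card (S := S) (h' := k.2.2.1) (r' := k.2.2.2)
    intro v hv
    rw [Finset.mem_filter] at hv
    obtain ⟨hv1, hv2⟩ := hv
    rw [hF, Finset.mem_filter, Finset.mem_product] at hv1
    obtain ⟨⟨c1, c2⟩, c3, c4⟩ := hv1
    refine ⟨c1, c2, c3, c4, ?_, ?_, ?_, ?_⟩
    · rw [← hv2]
    · rw [← hv2]
    · rw [← hv2]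
    · rw [← hv2]
  have hTsum : (∑ k ∈ T, (1 + (Rf N K t k.2.1 k.1).card : ℕ) : ℕ) =
      ∑ d ∈ S, ∑ h ∈ Finset.Icc 1 N,
        ((Finset.Icc 1 N).filter (fun h' : ℕ => (u : ℤ) ∣ 5 * ((h : ℤ) - (h' : ℤ)))).card *
          ((2 * N + 1) * (1 + (Rf N K t h d).card)) := by
    rw [hT, Finset.sum_filter, Finset.sum_product]
    apply Finset.sum_congr rfl
    intro d _
    rw [Finset.sum_product]
    apply Finset.sum_congr rfl
    intro h _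
    rw [Finset.sum_product, Finset.card_filter, Finset.sum_mul]
    apply Finset.sum_congr rfl
    intro h' _
    have hc : (Finset.Icc (-(N : ℤ)) (N : ℤ)).card = 2 * N + 1 := by
      rw [Int.card_Icc]; omega
    by_cases hh : (u : ℤ) ∣ 5 * ((h : ℤ) - (h' : ℤ))
    · simp only [hh, if_true]
      rw [Finset.sum_const, hc, smul_eq_mul, one_mul]
    · simp only [hh, if_false]
      rw [Finset.sum_const_zero, zero_mul]
  have hScard : (S.card : ℝ) ≤ (D : ℝ) := by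
    have h1 : S ⊆ Finset.Ioc D (2 * D) := by
      intro d hd
      obtain ⟨x1, x2, -⟩ := hS d hd
      rw [Finset.mem_Ioc]
      exact ⟨x1, x2⟩
    have h2 := Finset.card_le_card h1
    rw [Nat.card_Ioc] at h2
    have h3 : S.card ≤ D := by omega
    exact_mod_cast h3
  have hNu : (0 : ℝ) ≤ (N : ℝ) / (u : ℝ) := by positivity
  have hpow : (1 : ℝ) ≤ (N : ℝ) ^ ε := Real.one_le_rpow hNr hε.le
  have hpow2 : (N : ℝ) ^ (1 + ε) = (N : ℝ) * (N : ℝ) ^ ε := by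
    rw [Real.rpow_add (by linarith), Real.rpow_one]
  have hpow3 : (N : ℝ) ^ (2 + ε) = (N : ℝ) ^ 2 * (N : ℝ) ^ ε := by
    rw [Real.rpow_add (by linarith)]
    norm_num
  have hreal : (F.card : ℝ) ≤ ∑ d ∈ S, (5 * (1 + (N : ℝ) / (u : ℝ))) * (3 * (N : ℝ)) *
      ((N : ℝ) + C₀ * (N : ℝ) ^ (1 + ε) * (1 + (N : ℝ) / (u : ℝ))) := by
    have h1 : (F.card : ℝ) ≤ ((∑ k ∈ T, (1 + (Rf N K t k.2.1 k.1).card : ℕ) : ℕ) : ℝ) := by
      exact_mod_cast hsum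
    refine h1.trans ?_
    rw [hTsum]
    push_cast
    apply Finset.sum_le_sum
    intro d hd
    have hRd := hR N D K u t b S hPar d hd
    rw [← rsm_sum] at hRd
    push_cast at hRd
    calc ∑ h ∈ Finset.Icc 1 N,
        (((Finset.Icc 1 N).filter (fun h' : ℕ => (u : ℤ) ∣ 5 * ((h : ℤ) - (h' : ℤ)))).card : ℝ) *
          ((2 * (N : ℝ) + 1) * (1 + ((Rf N K t h d).card : ℝ)))
        ≤ ∑ h ∈ Finset.Icc 1 N, (5 * (1 + (N : ℝ) / (u : ℝ))) *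
          ((3 * (N : ℝ)) * (1 + ((Rf N K t h d).card : ℝ))) := by
          apply Finset.sum_le_sum
          intro h _
          apply mul_le_mul (A_card hu1) _ (by positivity) (by positivity)
          apply mul_le_mul_of_nonneg_right _ (by positivity)
          linarith
      _ = (5 * (1 + (N : ℝ) / (u : ℝ))) * (3 * (N : ℝ)) *
          ((N : ℝ) + ∑ h ∈ Finset.Icc 1 N, ((Rf N K t h d).card : ℝ)) := by
          rw [← Finset.mul_sum, ← Finset.mul_sum, Finset.sum_add_distrib, Finset.sum_const,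
            Nat.card_Icc]
          simp
          ring
      _ ≤ _ := by
          apply mul_le_mul_of_nonneg_left _ (by positivity)
          linarith
  rw [Finset.sum_const, nsmul_eq_mul] at hreal
  calc (F.card : ℝ) ≤ _ := hreal
    _ ≤ (D : ℝ) * ((5 * (1 + (N : ℝ) / (u : ℝ))) * (3 * (N : ℝ)) *
      ((N : ℝ) * (N : ℝ) ^ ε * (1 + (N : ℝ) / (u : ℝ)) +
        C₀ * (N : ℝ) ^ (1 + ε) * (1 + (N : ℝ) / (u : ℝ)))) := by
        apply mul_le_mul hScard _ (by positivity) (by positivity)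
        apply mul_le_mul_of_nonneg_left _ (by positivity)
        have : (N : ℝ) ≤ (N : ℝ) * (N : ℝ) ^ ε * (1 + (N : ℝ) / (u : ℝ)) := by
          have h1 : (1 : ℝ) ≤ (N : ℝ) ^ ε * (1 + (N : ℝ) / (u : ℝ)) := by nlinarith
          nlinarith
        linarith
    _ = 15 * (1 + C₀) * (N : ℝ) ^ (2 + ε) * (D : ℝ) * (1 + (N : ℝ) / (u : ℝ)) ^ 2 := by
        rw [hpow2, hpow3]
        ring

end Pool.Agent.VM5.H65
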