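import Mathlib
import Pool.Agent.VM5.Stmts

/-!
# Module ALT of the squad VM5
-/

set_option autoImplicit false

namespace Pool.Agent.VM5.H65

open Pool.Agent.VM5
open Pool.Agent.VM (Nr)

theorem int_zero_of_lt {a : ℤ} (h : |(a : ℝ)| < 1) : a = 0 := by
  have : |a| < 1 := by exact_mod_cast h
  exact Int.abs_lt_one_iff.mp this

/-- integer points of the box -/
theorem mem_P3g {N : ℕ} {S : Finset ℕ} {p : ℕ × ℕ × ℕ × ℤ} (hp : p ∈ P3g N S) :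
    p.2.2.1 ∈ S ∧ ¬ (p.2.2.1 : ℤ) ∣ Z3 p ∧ |(Z3 p : ℝ)| ≤ 4 * (N : ℝ) := by
  unfold P3g at hp
  rw [Finset.mem_filter] at hp
  obtain ⟨h1, h2⟩ := hp
  unfold P3 at h1
  simp only [Finset.mem_product, Finset.mem_Icc] at h1
  obtain ⟨⟨a1, a2⟩, ⟨b1, b2⟩, hS, c1, c2⟩ := h1
  refine ⟨hS, h2, ?_⟩
  unfold Z3
  have a2' : (p.1 : ℝ) ≤ N := by exact_mod_cast a2
  have b2' : (p.2.1 : ℝ) ≤ N := by exact_mod_cast b2
  have c1' : -(N : ℝ) ≤ (p.2.2.2 : ℝ) := by exact_mod_cast c1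
  have c2' : (p.2.2.2 : ℝ) ≤ N := by exact_mod_cast c2
  have a0 : (0 : ℝ) ≤ (p.1 : ℝ) := Nat.cast_nonneg _
  have b0 : (0 : ℝ) ≤ (p.2.1 : ℝ) := Nat.cast_nonneg _
  push_cast
  rw [abs_le]
  constructor <;> linarith

theorem step3 {t : ℝ} {V V' Z : ℤ} {d D K N : ℕ} {z3 z2 : ℤ} {e3 e2 : ℝ}
    (hD : 10 < D) (hKD : 5000 * D ≤ K) (hN : N ≤ 5 * D * K) (hd : d ≤ 2 * D)
    (hZ : |(Z : ℝ)| ≤ 4 * (N : ℝ))
    (h3 : t * (20 * (V : ℝ) * (d : ℝ) ^ 3) - t * (20 * (V' : ℝ) * (d : ℝ) ^ 3) = z3 + e3)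
    (he3 : |e3| ≤ 1 / (K : ℝ) ^ 3)
    (h2 : t * (30 * (V : ℝ) * (d : ℝ) ^ 2 * (Z : ℝ)) -
      t * (30 * (V' : ℝ) * (d : ℝ) ^ 2 * (Z : ℝ)) = z2 + e2)
    (he2 : |e2| ≤ 1 / (K : ℝ) ^ 2) :
    3 * Z * z3 = 2 * (d : ℤ) * z2 := by
  have hDr : (10 : ℝ) < (D : ℝ) := by exact_mod_cast hD
  have hKDr : 5000 * (D : ℝ) ≤ (K : ℝ) := by exact_mod_cast hKD
  have hNr : (N : ℝ) ≤ 5 * (D : ℝ) * (K : ℝ) := by exact_mod_cast hN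
  have hdr : (d : ℝ) ≤ 2 * (D : ℝ) := by exact_mod_cast hd
  have hK0 : (0 : ℝ) < (K : ℝ) := by linarith
  have hd0 : (0 : ℝ) ≤ (d : ℝ) := Nat.cast_nonneg _
  have key : ((3 * Z * z3 - 2 * (d : ℤ) * z2 : ℤ) : ℝ) = -3 * (Z : ℝ) * e3 + 2 * (d : ℝ) * e2 := by
    have e3' : (z3 : ℝ) = t * (20 * (V : ℝ) * (d : ℝ) ^ 3) - t * (20 * (V' : ℝ) * (d : ℝ) ^ 3) - e3 := by
      linarith
    have e2' : (z2 : ℝ) = t * (30 * (V : ℝ) * (d : ℝ) ^ 2 * (Z : ℝ)) -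
      t * (30 * (V' : ℝ) * (d : ℝ) ^ 2 * (Z : ℝ)) - e2 := by linarith
    push_cast
    rw [e3', e2']
    ring
  have hb : |((3 * Z * z3 - 2 * (d : ℤ) * z2 : ℤ) : ℝ)| < 1 := by
    rw [key]
    have a1 : |-3 * (Z : ℝ) * e3| ≤ 60 * (D : ℝ) / (K : ℝ) ^ 2 := by
      have : |-3 * (Z : ℝ) * e3| = 3 * |(Z : ℝ)| * |e3| := by
        rw [abs_mul, abs_mul]; norm_num
      rw [this]
      calc 3 * |(Z : ℝ)| * |e3| ≤ 3 * (4 * (N : ℝ)) * (1 / (K : ℝ) ^ 3) := by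
            apply mul_le_mul (by linarith) he3 (abs_nonneg _) (by positivity)
        _ ≤ 3 * (4 * (5 * (D : ℝ) * (K : ℝ))) * (1 / (K : ℝ) ^ 3) := by
            apply mul_le_mul_of_nonneg_right _ (by positivity)
            linarith
        _ = 60 * (D : ℝ) / (K : ℝ) ^ 2 := by field_simp; ring
    have a2 : |2 * (d : ℝ) * e2| ≤ 4 * (D : ℝ) / (K : ℝ) ^ 2 := by
      have : |2 * (d : ℝ) * e2| = 2 * (d : ℝ) * |e2| := by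
        rw [abs_mul, abs_of_nonneg (by positivity : (0 : ℝ) ≤ 2 * (d : ℝ))]
      rw [this]
      calc 2 * (d : ℝ) * |e2| ≤ 2 * (2 * (D : ℝ)) * (1 / (K : ℝ) ^ 2) := by
            apply mul_le_mul (by linarith) he2 (abs_nonneg _) (by positivity)
        _ = 4 * (D : ℝ) / (K : ℝ) ^ 2 := by ring
    have a3 : 60 * (D : ℝ) / (K : ℝ) ^ 2 + 4 * (D : ℝ) / (K : ℝ) ^ 2 < 1 := by
      rw [← add_div, div_lt_one (by positivity)]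
      nlinarith
    calc |-3 * (Z : ℝ) * e3 + 2 * (d : ℝ) * e2| ≤ |-3 * (Z : ℝ) * e3| + |2 * (d : ℝ) * e2| :=
          abs_add_le _ _
      _ < 1 := by linarith
  have := int_zero_of_lt hb
  linarith

theorem alt : AltStmt := by
  intro N D K U G t b S hPar p hp p' hp' hcl hdd hZZ
  obtain ⟨h4, hN, hD, hD8, hKD, -, -, -, -, -, -, -, hS⟩ := hPar
  obtain ⟨hpS, hpg, hpZ⟩ := mem_P3g hp
  obtain ⟨hd1, hd2, hdp⟩ := hS _ hpS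
  have hDr : (10 : ℝ) < (D : ℝ) := by exact_mod_cast hD
  have hKDr : 5000 * (D : ℝ) ≤ (K : ℝ) := by exact_mod_cast hKD
  have hNr : (N : ℝ) ≤ 5 * (D : ℝ) * (K : ℝ) := by exact_mod_cast hN
  have hK0 : (0 : ℝ) < (K : ℝ) := by linarith
  have hN0 : (0 : ℝ) ≤ (N : ℝ) := Nat.cast_nonneg _
  -- the common prime
  obtain ⟨d, hdd0⟩ : ∃ d : ℕ, d = p.2.2.1 := ⟨_, rfl⟩
  have hd'0 : p'.2.2.1 = d := by rw [hdd0, hdd]
  rw [← hdd0] at hd1 hd2 hdp hpg ⊢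
  have hd1r : (D : ℝ) < (d : ℝ) := by exact_mod_cast hd1
  have hd2r : (d : ℝ) ≤ 2 * (D : ℝ) := by exact_mod_cast hd2
  have hd0 : (0 : ℝ) < (d : ℝ) := by linarith
  have hdZp : Prime (d : ℤ) := Nat.prime_iff_prime_int.mp hdp
  have hd3 : ¬ (d : ℤ) ∣ 3 := by
    intro h
    have := Int.le_of_dvd (by norm_num) h
    have : d ≤ 3 := by exact_mod_cast this
    omega
  -- the conditions
  obtain ⟨z3, hz3⟩ := hcl 2
  obtain ⟨z2, hz2⟩ := hcl 1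
  obtain ⟨e3, he3⟩ : ∃ e3 : ℝ, e3 = t * (20 * (V3 p : ℝ) * (d : ℝ) ^ 3) -
    t * (20 * (V3 p' : ℝ) * (d : ℝ) ^ 3) - z3 := ⟨_, rfl⟩
  obtain ⟨e2, he2⟩ : ∃ e2 : ℝ, e2 = t * (30 * (V3 p : ℝ) * (d : ℝ) ^ 2 * (Z3 p : ℝ)) -
    t * (30 * (V3 p' : ℝ) * (d : ℝ) ^ 2 * (Z3 p : ℝ)) - z2 := ⟨_, rfl⟩
  have hb3 : |e3| ≤ 1 / (K : ℝ) ^ 3 := by
    have e : t * (co3 2 p : ℝ) - t * (co3 2 p' : ℝ) - z3 = e3 := by
      rw [he3]
      simp only [co3, n3, Matrix.cons_val]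
      rw [hd'0, ← hdd0]
      push_cast
      ring
    rw [← e]
    exact hz3
  have hb2 : |e2| ≤ 1 / (K : ℝ) ^ 2 := by
    have e : t * (co3 1 p : ℝ) - t * (co3 1 p' : ℝ) - z2 = e2 := by
      rw [he2]
      simp only [co3, n2, Matrix.cons_val]
      rw [hd'0, ← hdd0, ← hZZ]
      push_cast
      ring
    rw [← e]
    exact hz2
  have hst := step3 (t := t) (V := V3 p) (V' := V3 p') (Z := Z3 p) (d := d) (z3 := z3) (z2 := z2)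
    (e3 := e3) (e2 := e2) hD hKD hN hd2 hpZ (by rw [he3]; ring) hb3 (by rw [he2]; ring) hb2
  have hdg : (d : ℤ) ∣ z3 := by
    have h1 : (d : ℤ) ∣ 3 * Z3 p * z3 := by
      rw [hst]
      exact ⟨2 * z2, by ring⟩
    rcases hdZp.dvd_or_dvd h1 with h | h
    · rcases hdZp.dvd_or_dvd h with h | h
      · exact absurd h hd3
      · exact absurd h hpg
    · exact h
  obtain ⟨g1, hg1⟩ := hdg
  have hA : t * (20 * (d : ℝ) ^ 2 * ((V3 p : ℝ) - (V3 p' : ℝ))) - (g1 : ℝ) = e3 / (d : ℝ) := by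
    rw [he3, hg1]
    push_cast
    field_simp
  have he3d : |e3 / (d : ℝ)| ≤ 1 / ((D : ℝ) * (K : ℝ) ^ 3) := by
    rw [abs_div, abs_of_pos hd0]
    calc |e3| / (d : ℝ) ≤ (1 / (K : ℝ) ^ 3) / (D : ℝ) := by
          apply div_le_div₀ (by positivity) hb3 (by linarith) hd1r.le
      _ = 1 / ((D : ℝ) * (K : ℝ) ^ 3) := by field_simp
  refine ⟨⟨g1, ?_⟩, ?_⟩
  · have e : t * ((20 * (d : ℤ) ^ 2 * (V3 p - V3 p') : ℤ) : ℝ) - (g1 : ℝ) = e3 / (d : ℝ) := by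
      rw [← hA]; push_cast; ring
    rw [e]
    exact he3d
  by_cases hgd : (d : ℤ) ∣ g1
  · left
    obtain ⟨g2, hg2⟩ := hgd
    refine ⟨g2, ?_⟩
    have e : t * ((20 * (d : ℤ) * (V3 p - V3 p') : ℤ) : ℝ) - (g2 : ℝ) = e3 / (d : ℝ) / (d : ℝ) := by
      rw [← hA, hg2]; push_cast; field_simp
    rw [e, abs_div, abs_of_pos hd0]
    calc |e3 / (d : ℝ)| / (d : ℝ) ≤ (1 / ((D : ℝ) * (K : ℝ) ^ 3)) / (D : ℝ) := by
          apply div_le_div₀ (by positivity) he3d (by linarith) hd1r.le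
      _ = 1 / ((D : ℝ) ^ 2 * (K : ℝ) ^ 3) := by field_simp
  right
  intro q hq q' hq' hclq a1 a2 a3 a4 a5 a6 a7
  obtain ⟨-, -, hqZ⟩ := mem_P3g hq
  have hVq : V3 q = V3 p := by unfold V3; rw [a1, a2]
  have hVq' : V3 q' = V3 p' := by unfold V3; rw [a4, a5]
  have hWq : W3 q = W3 p := by unfold W3; rw [a1, a2]
  have hWq' : W3 q' = W3 p' := by unfold W3; rw [a4, a5]
  obtain ⟨z1, hz1⟩ := hcl 0
  obtain ⟨y1, hy1⟩ := hclq 0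
  -- `60 t d n Z² = 3 Z² g₁ / d + 3 Z² e₃ / d²`
  have main : ∀ (Z z : ℤ), |(Z : ℝ)| ≤ 4 * (N : ℝ) →
      |t * (5 * (V3 p : ℝ) * (d : ℝ) * (3 * (Z : ℝ) ^ 2 + (W3 p : ℝ))) -
        t * (5 * (V3 p' : ℝ) * (d : ℝ) * (3 * (Z : ℝ) ^ 2 + (W3 p' : ℝ))) - z| ≤ 1 / (K : ℝ) →
      |3 * (Z : ℝ) ^ 2 * (g1 : ℝ) / (d : ℝ) +
        20 * t * (d : ℝ) * ((V3 p : ℝ) * (W3 p : ℝ) - (V3 p' : ℝ) * (W3 p' : ℝ)) - 4 * z| ≤
        1204 / (K : ℝ) := by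
    intro Z z hZ hz
    obtain ⟨e1, he1⟩ : ∃ e1 : ℝ, e1 = t * (5 * (V3 p : ℝ) * (d : ℝ) * (3 * (Z : ℝ) ^ 2 + (W3 p : ℝ))) -
        t * (5 * (V3 p' : ℝ) * (d : ℝ) * (3 * (Z : ℝ) ^ 2 + (W3 p' : ℝ))) - z := ⟨_, rfl⟩
    rw [← he1] at hz
    have e : 3 * (Z : ℝ) ^ 2 * (g1 : ℝ) / (d : ℝ) +
        20 * t * (d : ℝ) * ((V3 p : ℝ) * (W3 p : ℝ) - (V3 p' : ℝ) * (W3 p' : ℝ)) - 4 * z =
        4 * e1 - 3 * (Z : ℝ) ^ 2 * (e3 / (d : ℝ)) / (d : ℝ) := by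
      have hg : (g1 : ℝ) = t * (20 * (d : ℝ) ^ 2 * ((V3 p : ℝ) - (V3 p' : ℝ))) - e3 / (d : ℝ) := by
        linarith
      rw [hg, he1]
      field_simp
      ring
    rw [e]
    have b1 : |3 * (Z : ℝ) ^ 2 * (e3 / (d : ℝ)) / (d : ℝ)| ≤ 1200 / (K : ℝ) := by
      rw [abs_div, abs_mul, abs_of_pos hd0, abs_of_nonneg (by positivity : (0 : ℝ) ≤ 3 * (Z : ℝ) ^ 2)]
      have hZ2 : (Z : ℝ) ^ 2 ≤ 16 * (N : ℝ) ^ 2 := by
        rw [← sq_abs]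
        nlinarith [abs_nonneg (Z : ℝ)]
      have hN2 : (N : ℝ) ^ 2 ≤ 25 * (D : ℝ) ^ 2 * (K : ℝ) ^ 2 := by nlinarith
      calc 3 * (Z : ℝ) ^ 2 * |e3 / (d : ℝ)| / (d : ℝ)
          ≤ (3 * (16 * (25 * (D : ℝ) ^ 2 * (K : ℝ) ^ 2)) * (1 / ((D : ℝ) * (K : ℝ) ^ 3))) / (D : ℝ) := by
            apply div_le_div₀ (by positivity) _ (by linarith) hd1r.le
            apply mul_le_mul _ he3d (abs_nonneg _) (by positivity)
            nlinarith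
        _ = 1200 / (K : ℝ) := by field_simp; ring
    have b2 : |4 * e1| ≤ 4 / (K : ℝ) := by
      rw [abs_mul, abs_of_pos (by norm_num : (0 : ℝ) < 4)]
      calc 4 * |e1| ≤ 4 * (1 / (K : ℝ)) := by linarith
        _ = 4 / (K : ℝ) := by ring
    calc |4 * e1 - 3 * (Z : ℝ) ^ 2 * (e3 / (d : ℝ)) / (d : ℝ)|
        ≤ |4 * e1| + |3 * (Z : ℝ) ^ 2 * (e3 / (d : ℝ)) / (d : ℝ)| := abs_sub _ _
      _ ≤ 4 / (K : ℝ) + 1200 / (K : ℝ) := by linarith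
      _ = 1204 / (K : ℝ) := by ring
  have hm1 := main (Z3 p) z1 hpZ (by
    have e : t * (co3 0 p : ℝ) - t * (co3 0 p' : ℝ) - z1 =
        t * (5 * (V3 p : ℝ) * (d : ℝ) * (3 * (Z3 p : ℝ) ^ 2 + (W3 p : ℝ))) -
        t * (5 * (V3 p' : ℝ) * (d : ℝ) * (3 * (Z3 p : ℝ) ^ 2 + (W3 p' : ℝ))) - z1 := by
      simp only [co3, n1, Matrix.cons_val]
      rw [hd'0, ← hdd0, ← hZZ]
      push_cast
      ring
    rw [← e]
    have := hz1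
    simpa using this)
  have hm2 := main (Z3 q) y1 hqZ (by
    have e : t * (co3 0 q : ℝ) - t * (co3 0 q' : ℝ) - y1 =
        t * (5 * (V3 p : ℝ) * (d : ℝ) * (3 * (Z3 q : ℝ) ^ 2 + (W3 p : ℝ))) -
        t * (5 * (V3 p' : ℝ) * (d : ℝ) * (3 * (Z3 q : ℝ) ^ 2 + (W3 p' : ℝ))) - y1 := by
      simp only [co3, n1, Matrix.cons_val]
      rw [hVq, hVq', hWq, hWq', a6, hd'0, a3, ← a7]
      push_cast
      ring
    rw [← e]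
    have := hy1
    simpa using this)
  have hdvd : (d : ℤ) ∣ 3 * (Z3 p ^ 2 - Z3 q ^ 2) * g1 := by
    have hz : 3 * (Z3 p ^ 2 - Z3 q ^ 2) * g1 - (d : ℤ) * (4 * (z1 - y1)) = 0 := by
      apply int_zero_of_lt
      have e : ((3 * (Z3 p ^ 2 - Z3 q ^ 2) * g1 - (d : ℤ) * (4 * (z1 - y1)) : ℤ) : ℝ) =
          (d : ℝ) * ((3 * (Z3 p : ℝ) ^ 2 * (g1 : ℝ) / (d : ℝ) +
        20 * t * (d : ℝ) * ((V3 p : ℝ) * (W3 p : ℝ) - (V3 p' : ℝ) * (W3 p' : ℝ)) - 4 * z1) -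
          (3 * (Z3 q : ℝ) ^ 2 * (g1 : ℝ) / (d : ℝ) +
        20 * t * (d : ℝ) * ((V3 p : ℝ) * (W3 p : ℝ) - (V3 p' : ℝ) * (W3 p' : ℝ)) - 4 * y1)) := by
        push_cast
        field_simp
        ring
      rw [e, abs_mul, abs_of_pos hd0]
      have hab := abs_sub (3 * (Z3 p : ℝ) ^ 2 * (g1 : ℝ) / (d : ℝ) +
        20 * t * (d : ℝ) * ((V3 p : ℝ) * (W3 p : ℝ) - (V3 p' : ℝ) * (W3 p' : ℝ)) - 4 * z1)
          (3 * (Z3 q : ℝ) ^ 2 * (g1 : ℝ) / (d : ℝ) +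
        20 * t * (d : ℝ) * ((V3 p : ℝ) * (W3 p : ℝ) - (V3 p' : ℝ) * (W3 p' : ℝ)) - 4 * y1)
      calc _ ≤ (2 * (D : ℝ)) * (1204 / (K : ℝ) + 1204 / (K : ℝ)) := by
            apply mul_le_mul hd2r _ (abs_nonneg _) (by positivity)
            linarith
        _ = 4816 * (D : ℝ) / (K : ℝ) := by ring
        _ < 1 := by
            rw [div_lt_one hK0]
            linarith
    exact ⟨4 * (z1 - y1), by linarith⟩
  rcases hdZp.dvd_or_dvd hdvd with h | h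
  · rcases hdZp.dvd_or_dvd h with h | h
    · exact absurd h hd3
    · have e : Z3 p ^ 2 - Z3 q ^ 2 = (Z3 p - Z3 q) * (Z3 p + Z3 q) := by ring
      rw [e] at h
      exact hdZp.dvd_or_dvd h
  · exact absurd h hgd

end Pool.Agent.VM5.H65
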